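import Pool.Agent.Helper78.Rsl.All

/-!
# MP_9227e6_nt: every multiplier below 509203 needs a covering set with at least `10 ^ 6` primes

`Cov P k`: `P` is a finite set of primes, and for every sufficiently large `m` the number `k * 2 ^ m - 1` has a divisor in `P`
or `k * 2 ^ m` is a perfect power `c ^ b`, `b ≥ 2`, `c > 2` (so that `k * 2 ^ m - 1` is divisible by `c - 1`).
-/

set_option autoImplicit false

namespace Pool.Agent.Results.MP_9227e6_nt.CoverMillion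

/-- `k * 2 ^ m` is a perfect power (different from the powers of `2` with base `2`). -/
def Alg (k m : ℕ) : Prop := ∃ b c : ℕ, 2 ≤ b ∧ 2 < c ∧ k * 2 ^ m = c ^ b

/-- The finite set `P` of primes and the factorisations of `c ^ b - 1` show that `k * 2 ^ m - 1` has a small divisor
for all large `m`. -/
def Cov (P : Finset ℕ) (k : ℕ) : Prop :=
  (∀ p ∈ P, p.Prime) ∧ ∃ M : ℕ, ∀ m : ℕ, M ≤ m → Alg k m ∨ ∃ p ∈ P, p ∣ k * 2 ^ m - 1

/-- For some prime `l ≥ 10 ^ 6` the set `P` contains at least `l` primes `p` such that `l` is the greatest prime factor of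
the multiplicative order of `2` modulo `p`. -/
def Big (P : Finset ℕ) : Prop :=
  ∃ l : ℕ, l.Prime ∧ 1000000 ≤ l ∧ ∃ T ⊆ P, l ≤ T.card ∧ ∀ p ∈ T, l ∣ orderOf (2 : ZMod p) ∧
    ∀ r : ℕ, r.Prime → r ∣ orderOf (2 : ZMod p) → r ≤ l

private theorem cov509203 (m : ℕ) : ∃ p ∈ ({3, 5, 7, 13, 17, 241} : Finset ℕ), p ∣ 509203 * 2 ^ m - 1 := by
  have h1 : ∀ r < 24, ∃ p ∈ ({3, 5, 7, 13, 17, 241} : Finset ℕ), 509203 * 2 ^ r % p = 1 ∧ 2 ^ 24 % p = 1 := by
    decide
  obtain ⟨p, hp, h2, h3⟩ := h1 (m % 24) (Nat.mod_lt _ (by norm_num))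
  refine ⟨p, hp, ?_⟩
  have hp1 : 1 < p := by
    by_contra h
    have : p = 0 ∨ p = 1 := by omega
    rcases this with rfl | rfl <;> revert hp <;> decide
  have e1 : 2 ^ 24 ≡ 1 [MOD p] := by
    unfold Nat.ModEq
    rw [h3, Nat.mod_eq_of_lt hp1]
  have e2 : 509203 * 2 ^ m ≡ 1 [MOD p] := by
    have e3 : m = 24 * (m / 24) + m % 24 := (Nat.div_add_mod m 24).symm
    have e4 : (2 ^ 24) ^ (m / 24) ≡ 1 ^ (m / 24) [MOD p] := e1.pow _
    have e5 : 509203 * 2 ^ m = 509203 * 2 ^ (m % 24) * (2 ^ 24) ^ (m / 24) := by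
      conv_lhs => rw [e3, pow_add, pow_mul]
      ring
    rw [e5]
    have e6 : 509203 * 2 ^ (m % 24) ≡ 1 [MOD p] := by
      unfold Nat.ModEq
      rw [h2, Nat.mod_eq_of_lt hp1]
    have e7 := e6.mul e4
    rwa [one_pow, mul_one] at e7
  exact (Nat.modEq_iff_dvd' (Nat.one_le_iff_ne_zero.2 (by positivity))).1 e2.symm

private theorem big_of {k : ℕ} (hk : Odd k) (hk2 : k < 509203) {P : Finset ℕ} (h : Cov P k) : Big P := by
  obtain ⟨hP, M, hM⟩ := h
  by_cases hk1 : k = 1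
  · subst hk1
    obtain ⟨m, hm, h1, h2⟩ := Pool.Agent.Helper78.Rsl.noCover_one P hP (M := M)
    rcases hM m hm with h3 | h3
    · exact absurd h3 h1
    · exact absurd h3 h2
  · obtain ⟨u, w, h1, h2, h3⟩ := Pool.Agent.Helper78.Rsl.goodP_all hk hk1 hk2
    exact Pool.Agent.Helper78.Rsl.noCover (by norm_num) hk hk1 hk2 h1 h2 h3 P hP hM

theorem result :
    IsLeast {k : ℕ | Odd k ∧ ∃ P : Finset ℕ, P.card < 1000000 ∧ Cov P k} 509203 ∧
    ∀ (P : Finset ℕ) (k : ℕ), Odd k → k < 509203 → Cov P k → Big P := by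
  have h5 : ∀ (P : Finset ℕ) (k : ℕ), Odd k → k < 509203 → Cov P k → Big P := fun P k hk hk2 h => big_of hk hk2 h
  refine ⟨⟨⟨⟨254601, by norm_num⟩, {3, 5, 7, 13, 17, 241}, ?_, ?_, 0, fun m _ => Or.inr (cov509203 m)⟩, ?_⟩, h5⟩
  · have hc : ({3, 5, 7, 13, 17, 241} : Finset ℕ).card = 6 := rfl
    rw [hc]
    norm_num
  · intro p hp
    simp only [Finset.mem_insert, Finset.mem_singleton] at hp
    rcases hp with rfl | rfl | rfl | rfl | rfl | rfl <;> norm_num
  · rintro k ⟨hk, P, hP, hc⟩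
    by_contra hlt
    push Not at hlt
    obtain ⟨l, _, hl, T, hT, hlT, _⟩ := h5 P k hk hlt hc
    have := Finset.card_le_card hT
    omega

end Pool.Agent.Results.MP_9227e6_nt.CoverMillion
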